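import Mathlib

/-!
# Pate's permanental inequality (S01961, full answer): interface

For `A = (⟨x_i, x_j⟩)` put `L_i = lin (coordinates of x_i)`, `P = ∏_{i ≥ 2} L_i`; then permanents are
values of the Fischer form `fi` (piece P3).  After rescaling row and column 1, `x_0 = y_0 + y_1` and
`x_1 = y_0 - y_1` with `y_0 ⊥ y_1`; in an orthonormal basis with `y_0 = α e_0`, `y_1 = β e_1` the
inequality is exactly `PieceT`.
-/

set_option autoImplicit false
open scoped ComplexConjugate Nat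

namespace Pool.Agent.Run7.h513.Pate

open MvPolynomial Finset

/-- the product of the factorials of the exponents -/
noncomputable def W {r : ℕ} (m : Fin r →₀ ℕ) : ℝ := ∏ l, ((m l)! : ℝ)

/-- the Fischer form, conjugate-linear in the first argument -/
noncomputable def fi {r : ℕ} (P Q : MvPolynomial (Fin r) ℂ) : ℂ :=
  ∑' m : Fin r →₀ ℕ, (W m : ℂ) * (conj (coeff m P) * coeff m Q)

/-- the linear form with coefficients `u` -/
noncomputable def lin {r : ℕ} (u : Fin r → ℂ) : MvPolynomial (Fin r) ℂ := ∑ l, C (u l) * X l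

/-- Piece P1: multiplication by `X i` is adjoint to `∂_i`; `fi` is additive and homogeneous.
Proof: `fi (X i * P) Q`: the terms with `m i = 0` vanish, `Function.Injective.tsum_eq` for the map
`m ↦ m + single i 1`, `W (m + single i 1) = (m i + 1) W m`, and
`coeff m (pderiv i Q) = (m i + 1) coeff (m + single i 1) Q`.  Linearity: finite supports. -/
def PieceP1 : Prop := ∀ (r : ℕ),
  (∀ (i : Fin r) (P Q : MvPolynomial (Fin r) ℂ), fi (X i * P) Q = fi P (pderiv i Q)) ∧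
  (∀ (P Q R : MvPolynomial (Fin r) ℂ), fi (P + Q) R = fi P R + fi Q R) ∧
  (∀ (P Q R : MvPolynomial (Fin r) ℂ), fi P (Q + R) = fi P Q + fi P R) ∧
  (∀ (c : ℂ) (P Q : MvPolynomial (Fin r) ℂ), fi (C c * P) Q = conj c * fi P Q) ∧
  (∀ (c : ℂ) (P Q : MvPolynomial (Fin r) ℂ), fi P (C c * Q) = c * fi P Q) ∧
  fi (1 : MvPolynomial (Fin r) ℂ) 1 = 1

/-- Piece P2: Laplace expansion of a permanent along row 0.  Copy Mathlib's proof of
`Matrix.det_succ_column_zero` without signs and transpose. -/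
def PieceP2 : Prop := ∀ (k : ℕ) (M : Matrix (Fin (k + 1)) (Fin (k + 1)) ℂ),
  M.permanent = ∑ j, M 0 j * (M.submatrix Fin.succ j.succAbove).permanent

/-- Piece P3 (from P1 and P2): the Fischer form of two products of linear forms is a permanent.
Induction on `k`: `fi (lin u₀ * P') (∏ lin v_j) = ∑_l conj (u₀ l) * fi P' (pderiv l (∏ lin v_j))`,
`pderiv l (lin v) = C (v l)`, Leibniz rule for a product over `Fin (k+1)`, and P2. -/
def PieceP3 : Prop := ∀ (k r : ℕ) (u v : Fin k → Fin r → ℂ),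
  fi (∏ i, lin (u i)) (∏ j, lin (v j))
    = (Matrix.of fun i j => ∑ l, conj (u i l) * v j l : Matrix (Fin k) (Fin k) ℂ).permanent

/-- Piece S: the scalar inequality. -/
def PieceS : Prop := ∀ (x y N : ℝ), 0 ≤ x → 0 ≤ y → 2 ≤ N → ∃ ρ : ℝ, 0 < ρ ∧
  ∀ a b : ℝ, 0 ≤ a → 0 ≤ b → a + b + 2 = N →
    2 * (x * y) * N ≤ x ^ 2 * ((a + 1) * (a + 2)) + y ^ 2 * ((b + 1) * (b + 2))
      - x * y * ρ * ((a + 1) * b) - x * y / ρ * ((b + 1) * a)

/-- Piece T (from S).  Put `x = ‖α‖²`, `y = ‖β‖²`, `c m = ‖coeff m P‖`, `D_i M = ‖coeff M (X_i² P)‖`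
(it is `c m` if `M = m + 2 e_i` and `0` if `M i < 2`).
`fi (X_i P) (X_i P) = ∑' W m (m i + 1) (c m)²`.
`‖coeff M (q P)‖² ≥ (x D_0 M - y D_1 M)² ≥ x² D_0² + y² D_1² - x y (ρ (B/A) D_0² + A/(ρ B) D_1²)`
with `A = M 0`, `B = M 1`, `ρ = ρ(A + B)` from piece S with `N = A + B` (if `A < 2` or `B < 2` then
`D_0 D_1 = 0`).  Sum over `M` with the weights `W M`, reindex the two sums by `M = m + 2 e_0` and
`M = m + 2 e_1` (`W (m + 2 e_0) = (m 0 + 1)(m 0 + 2) W m`), `N = m 0 + m 1 + 2`: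
the coefficient of `W m (c m)²` is the right side of S with `a = m 0`, `b = m 1`. -/
def PieceT : Prop := ∀ (r : ℕ) (P : MvPolynomial (Fin (r + 2)) ℂ) (α β : ℂ),
  4 * (‖α‖ ^ 2 * ‖β‖ ^ 2) * ((fi (X 0 * P) (X 0 * P)).re + (fi (X 1 * P) (X 1 * P)).re) ≤
    2 * (fi ((C (α ^ 2) * X 0 ^ 2 - C (β ^ 2) * X 1 ^ 2) * P)
      ((C (α ^ 2) * X 0 ^ 2 - C (β ^ 2) * X 1 ^ 2) * P)).re

end Pool.Agent.Run7.h513.Pate
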