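import Pool.Agent.Run7.h513.pate.Iface

set_option autoImplicit false
open scoped ComplexConjugate Nat ComplexOrder MatrixOrder InnerProductSpace

namespace Pool.Agent.Run7.h513.Pate

open MvPolynomial Finset

/-- Gram vectors of a positive semidefinite matrix -/
theorem exists_gram {n : ℕ} (A : Matrix (Fin n) (Fin n) ℂ) (hA : A.PosSemidef) :
    ∃ x : Fin n → EuclideanSpace ℂ (Fin n), ∀ i j, A i j = ⟪x i, x j⟫_ℂ := by
  obtain ⟨B, rfl⟩ := CStarAlgebra.nonneg_iff_eq_star_mul_self.mp hA.nonneg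
  refine ⟨fun i => WithLp.toLp 2 (fun k => B k i), fun i j => ?_⟩
  rw [Matrix.mul_apply, PiLp.inner_apply]
  refine Finset.sum_congr rfl fun k _ => ?_
  simp [Matrix.star_apply, RCLike.inner_apply, mul_comm]

/-- orthogonal splitting of two vectors -/
theorem exists_split {n : ℕ} (x0 x1 : EuclideanSpace ℂ (Fin n)) (h0 : x0 ≠ 0) (h1 : x1 ≠ 0) :
    ∃ (c : ℂ) (y0 y1 : EuclideanSpace ℂ (Fin n)), x0 = y0 + y1 ∧ x1 = c • (y0 - y1) ∧
      ⟪y0, y1⟫_ℂ = 0 := by
  obtain ⟨ω, hω, hω2⟩ := Complex.exists_norm_mul_eq_self (conj ⟪x0, x1⟫_ℂ)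
  have hn0 : (‖x0‖ : ℂ) ≠ 0 := by simpa using h0
  have hn1 : (‖x1‖ : ℂ) ≠ 0 := by simpa using h1
  have hω0 : ω ≠ 0 := by rintro rfl; simp at hω
  obtain ⟨z, hz⟩ : ∃ z : ℂ, z = ‖x0‖ / ‖x1‖ * ω := ⟨_, rfl⟩
  have hz0 : z ≠ 0 := by rw [hz]; exact mul_ne_zero (div_ne_zero hn0 hn1) hω0
  refine ⟨z⁻¹, (2 : ℂ)⁻¹ • (x0 + z • x1), (2 : ℂ)⁻¹ • (x0 - z • x1), ?_, ?_, ?_⟩
  · rw [← smul_add, show x0 + z • x1 + (x0 - z • x1) = (2 : ℂ) • x0 by rw [two_smul]; abel,
      smul_smul]; norm_num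
  · rw [← smul_sub, show x0 + z • x1 - (x0 - z • x1) = (2 : ℂ) • (z • x1) by rw [two_smul]; abel,
      smul_smul, smul_smul, smul_smul]
    rw [show z⁻¹ * (2 : ℂ)⁻¹ * 2 * z = 1 by field_simp, one_smul]
  · rw [inner_smul_left, inner_smul_right, inner_add_left, inner_sub_right, inner_sub_right,
      inner_smul_left, inner_smul_right, inner_smul_right, inner_smul_left,
      inner_self_eq_norm_sq_to_K, inner_self_eq_norm_sq_to_K, ← inner_conj_symm x1 x0]
    have e1 : z * ⟪x0, x1⟫_ℂ = ‖x0‖ / ‖x1‖ * ‖⟪x0, x1⟫_ℂ‖ := by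
      have h2 : ⟪x0, x1⟫_ℂ = conj ω * ‖⟪x0, x1⟫_ℂ‖ := by
        have := congrArg conj hω2
        simp only [map_mul, Complex.conj_ofReal, Complex.conj_conj, RCLike.norm_conj] at this
        exact this.symm
      have h3 : ω * conj ω = 1 := by rw [Complex.mul_conj, Complex.normSq_eq_norm_sq, hω]; simp
      rw [hz]
      calc _ = ‖x0‖ / ‖x1‖ * ω * (conj ω * ‖⟪x0, x1⟫_ℂ‖) := by rw [← h2]
        _ = ‖x0‖ / ‖x1‖ * ‖⟪x0, x1⟫_ℂ‖ * (ω * conj ω) := by ring
        _ = _ := by rw [h3, mul_one]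
    have e2 : conj z * conj ⟪x0, x1⟫_ℂ = ‖x0‖ / ‖x1‖ * ‖⟪x0, x1⟫_ℂ‖ := by
      rw [← map_mul, e1]; simp
    have e3 : conj z * z * (‖x1‖ : ℂ) ^ 2 = (‖x0‖ : ℂ) ^ 2 := by
      rw [mul_comm (conj z), Complex.mul_conj, Complex.normSq_eq_norm_sq, hz, norm_mul, hω]
      simp only [norm_div, Complex.norm_real, norm_norm, mul_one]
      push_cast
      field_simp
    have e5 : conj (2 : ℂ) = 2 := by
      have := Complex.conj_ofReal 2
      push_cast at this
      exact this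
    have e4 : conj (2 : ℂ)⁻¹ = 2⁻¹ := by rw [map_inv₀, e5]
    simp only [Complex.coe_algebraMap]
    rw [e4]
    linear_combination (1/4 : ℂ) * (-e1 + e2 - e3)

/-- adapted orthonormal basis -/
theorem exists_basis {n : ℕ} (y0 y1 : EuclideanSpace ℂ (Fin (n + 2))) (h : ⟪y0, y1⟫_ℂ = 0) :
    ∃ b : OrthonormalBasis (Fin (n + 2)) ℂ (EuclideanSpace ℂ (Fin (n + 2))),
      (∀ l, l ≠ 0 → ⟪b l, y0⟫_ℂ = 0) ∧ (∀ l, l ≠ 1 → ⟪b l, y1⟫_ℂ = 0) := by
  obtain ⟨f, hf⟩ : ∃ f : Fin (n + 2) → EuclideanSpace ℂ (Fin (n + 2)),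
      f = fun i => if i = 0 then y0 else if i = 1 then y1 else 0 := ⟨_, rfl⟩
  have hpair : Pairwise fun i j => ⟪f i, f j⟫_ℂ = 0 := by
    intro i j hij
    simp only [hf]
    split_ifs with h1 h2 h3 h4 h5 h6
    · exact absurd (h1.trans h2.symm) hij
    · exact h
    · simp
    · rw [← inner_conj_symm, h]; simp
    · exact absurd (h4.trans h6.symm) hij
    · simp
    all_goals simp
  have hcard : Module.finrank ℂ (EuclideanSpace ℂ (Fin (n + 2))) = Fintype.card (Fin (n + 2)) := by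
    simp
  have key : ∀ l j, l ≠ j →
      ⟪InnerProductSpace.gramSchmidtOrthonormalBasis hcard f l, f j⟫_ℂ = 0 := by
    intro l j hlj
    by_cases hj : f j = 0
    · rw [hj, inner_zero_right]
    · have h1 : InnerProductSpace.gramSchmidtOrthonormalBasis hcard f j
          = ((‖f j‖ : ℝ) : ℂ)⁻¹ • f j :=
        InnerProductSpace.gramSchmidtOrthonormalBasis_apply_of_orthogonal hcard hpair hj
      have hne : ((‖f j‖ : ℝ) : ℂ) ≠ 0 := by simpa using hj
      have h2 : f j = (‖f j‖ : ℂ) • InnerProductSpace.gramSchmidtOrthonormalBasis hcard f j := by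
        rw [h1, smul_smul, mul_inv_cancel₀ hne, one_smul]
      rw [h2, inner_smul_right,
        (InnerProductSpace.gramSchmidtOrthonormalBasis hcard f).orthonormal.2 hlj, mul_zero]
  refine ⟨InnerProductSpace.gramSchmidtOrthonormalBasis hcard f, fun l hl => ?_, fun l hl => ?_⟩
  · have := key l 0 hl
    simpa [hf] using this
  · have := key l 1 hl
    simpa [hf] using this

theorem lin_add {r : ℕ} (u v : Fin r → ℂ) : lin (u + v) = lin u + lin v := by
  simp [lin, add_mul, Finset.sum_add_distrib]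

theorem lin_sub {r : ℕ} (u v : Fin r → ℂ) : lin (u - v) = lin u - lin v := by
  simp [lin, sub_mul, Finset.sum_sub_distrib]

theorem lin_smul {r : ℕ} (c : ℂ) (u : Fin r → ℂ) : lin (c • u) = C c * lin u := by
  simp [lin, Finset.mul_sum, mul_assoc]

theorem lin_single {r : ℕ} (i : Fin r) (u : Fin r → ℂ) (h : ∀ l, l ≠ i → u l = 0) :
    lin u = C (u i) * X i := by
  rw [lin, Finset.sum_eq_single i]
  · intro l _ hl; rw [h l hl]; simp
  · intro h; exact absurd (Finset.mem_univ i) h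

theorem fi_self_nonneg {r : ℕ} (Q : MvPolynomial (Fin r) ℂ) : 0 ≤ (fi Q Q).re := by
  have h : fi Q Q = ((∑' m : Fin r →₀ ℕ, W m * ‖coeff m Q‖ ^ 2 : ℝ) : ℂ) := by
    rw [fi, Complex.ofReal_tsum]
    refine tsum_congr fun m => ?_
    rw [mul_comm (conj _), Complex.mul_conj, Complex.normSq_eq_norm_sq]
    push_cast; ring
  rw [h, Complex.ofReal_re]
  refine tsum_nonneg fun m => ?_
  have : 0 ≤ W m := by unfold W; positivity
  positivity

/-- the coordinates of a vector -/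
noncomputable def co {n : ℕ} (b : OrthonormalBasis (Fin n) ℂ (EuclideanSpace ℂ (Fin n)))
    (x : EuclideanSpace ℂ (Fin n)) : Fin n → ℂ := fun l => ⟪b l, x⟫_ℂ

theorem co_add {n : ℕ} (b : OrthonormalBasis (Fin n) ℂ (EuclideanSpace ℂ (Fin n)))
    (x y : EuclideanSpace ℂ (Fin n)) : co b (x + y) = co b x + co b y := by
  funext l; simp [co]

theorem co_sub {n : ℕ} (b : OrthonormalBasis (Fin n) ℂ (EuclideanSpace ℂ (Fin n)))
    (x y : EuclideanSpace ℂ (Fin n)) : co b (x - y) = co b x - co b y := by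
  funext l; simp [co]

theorem co_smul {n : ℕ} (b : OrthonormalBasis (Fin n) ℂ (EuclideanSpace ℂ (Fin n))) (c : ℂ)
    (x : EuclideanSpace ℂ (Fin n)) : co b (c • x) = c • co b x := by
  funext l; simp [co]

theorem sum_co {n : ℕ} (b : OrthonormalBasis (Fin n) ℂ (EuclideanSpace ℂ (Fin n)))
    (x y : EuclideanSpace ℂ (Fin n)) : ∑ l, conj (co b x l) * co b y l = ⟪x, y⟫_ℂ := by
  rw [← b.sum_inner_mul_inner x y]
  refine Finset.sum_congr rfl fun l _ => ?_
  rw [co, co, inner_conj_symm]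

/-- the algebra of the reduction -/
theorem algebra (hP1 : PieceP1) {r : ℕ} (Y0 Y1 P : MvPolynomial (Fin r) ℂ) (c p q : ℂ) :
    ((p + q) * fi (C c * (Y0 - Y1) * P) (C c * (Y0 - Y1) * P)
      - c * (p - q) * fi (C c * (Y0 - Y1) * P) ((Y0 + Y1) * P)
      - conj c * (p - q) * fi ((Y0 + Y1) * P) (C c * (Y0 - Y1) * P)
      + (conj c * c * (p + q)) * fi ((Y0 + Y1) * P) ((Y0 + Y1) * P)) =
    conj c * c * (4 * q * fi (Y0 * P) (Y0 * P) + 4 * p * fi (Y1 * P) (Y1 * P)) := by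
  obtain ⟨-, a1, a2, s1, s2, -⟩ := hP1 r
  have n1 : ∀ A B : MvPolynomial (Fin r) ℂ, fi (-A) B = - fi A B := by
    intro A B
    have := s1 (-1) A B
    simpa using this
  have n2 : ∀ A B : MvPolynomial (Fin r) ℂ, fi A (-B) = - fi A B := by
    intro A B
    have := s2 (-1) A B
    simpa using this
  simp only [mul_assoc, s1, s2, add_mul, sub_eq_add_neg, a1, a2, n1, n2, neg_mul]
  ring

theorem conj_mul_self' (c : ℂ) : conj c * c = ((‖c‖ ^ 2 : ℝ) : ℂ) := by
  rw [mul_comm, Complex.mul_conj, Complex.normSq_eq_norm_sq]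

/-- the statement of `S01961` from the pieces -/
theorem t_Q (hP1 : PieceP1) (hP3 : PieceP3) (hT : PieceT) :
    ∀ (n : ℕ) (A : Matrix (Fin (n+2)) (Fin (n+2)) ℂ), A.PosSemidef →
      (A 0 0 * (A.submatrix (Fin.succAbove (0 : Fin (n+2))) (Fin.succAbove (0 : Fin (n+2)))).permanent
        - A 0 1 * (A.submatrix (Fin.succAbove (0 : Fin (n+2))) (Fin.succAbove (1 : Fin (n+2)))).permanent
        - A 1 0 * (A.submatrix (Fin.succAbove (1 : Fin (n+2))) (Fin.succAbove (0 : Fin (n+2)))).permanent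
        + A 1 1 * (A.submatrix (Fin.succAbove (1 : Fin (n+2))) (Fin.succAbove (1 : Fin (n+2)))).permanent).re
      ≤ 2 * (A.permanent).re := by
  intro n A hA
  obtain ⟨x, hx⟩ := exists_gram A hA
  have per : ∀ (b : OrthonormalBasis (Fin (n + 2)) ℂ (EuclideanSpace ℂ (Fin (n + 2)))) (k : ℕ)
      (f g : Fin k → Fin (n + 2)), (A.submatrix f g).permanent =
        fi (∏ i, lin (co b (x (f i)))) (∏ j, lin (co b (x (g j)))) := by
    intro b k f g
    rw [hP3]
    congr 1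
    ext i j
    simp only [Matrix.submatrix_apply, Matrix.of_apply, hx, sum_co]
  have pr : ∀ (b : OrthonormalBasis (Fin (n + 2)) ℂ (EuclideanSpace ℂ (Fin (n + 2)))),
      ∏ i, lin (co b (x i)) =
        lin (co b (x 0)) * (lin (co b (x 1)) * ∏ i : Fin n, lin (co b (x i.succ.succ))) := by
    intro b
    rw [Fin.prod_univ_succ, Fin.prod_univ_succ]
    rfl
  have pr0 : ∀ (b : OrthonormalBasis (Fin (n + 2)) ℂ (EuclideanSpace ℂ (Fin (n + 2)))),
      ∏ i : Fin (n + 1), lin (co b (x (Fin.succAbove 0 i))) =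
        lin (co b (x 1)) * ∏ i : Fin n, lin (co b (x i.succ.succ)) := by
    intro b
    rw [Fin.prod_univ_succ]
    rfl
  have pr1 : ∀ (b : OrthonormalBasis (Fin (n + 2)) ℂ (EuclideanSpace ℂ (Fin (n + 2)))),
      ∏ i : Fin (n + 1), lin (co b (x (Fin.succAbove 1 i))) =
        lin (co b (x 0)) * ∏ i : Fin n, lin (co b (x i.succ.succ)) := by
    intro b
    rw [Fin.prod_univ_succ]
    simp only [Fin.one_succAbove_zero, Fin.one_succAbove_succ]
  have perA : ∀ (b : OrthonormalBasis (Fin (n + 2)) ℂ (EuclideanSpace ℂ (Fin (n + 2)))),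
      A.permanent = fi (lin (co b (x 0)) * (lin (co b (x 1)) * ∏ i : Fin n, lin (co b (x i.succ.succ))))
        (lin (co b (x 0)) * (lin (co b (x 1)) * ∏ i : Fin n, lin (co b (x i.succ.succ)))) := by
    intro b
    have := per b (n + 2) id id
    simp only [id, pr] at this
    rw [← this]
    rfl
  obtain ⟨-, a1, a2, s1, s2, -⟩ := hP1 (n + 2)
  have fz : ∀ Q, fi (0 : MvPolynomial (Fin (n + 2)) ℂ) Q = 0 := by
    intro Q
    have := s1 0 0 Q
    simpa using this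
  have l0 : lin (0 : Fin (n + 2) → ℂ) = 0 := by simp [lin]
  by_cases h0 : x 0 = 0
  · have b := EuclideanSpace.basisFun (Fin (n + 2)) ℂ
    have hc : co b (x 0) = 0 := by rw [h0]; funext l; simp [co]
    have e00 : A 0 0 = 0 := by rw [hx, h0, inner_zero_left]
    have e01 : A 0 1 = 0 := by rw [hx, h0, inner_zero_left]
    have e10 : A 1 0 = 0 := by rw [hx, h0, inner_zero_right]
    have z1 : lin (co b (x 0)) * ∏ i : Fin n, lin (co b (x i.succ.succ)) = 0 := by
      rw [hc, l0, zero_mul]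
    rw [e00, e01, e10, per b (n + 1) (Fin.succAbove 1) (Fin.succAbove 1), pr1, z1, fz,
      perA b]
    have := fi_self_nonneg (lin (co b (x 0)) * (lin (co b (x 1)) *
      ∏ i : Fin n, lin (co b (x i.succ.succ))))
    simp only [zero_mul, mul_zero, sub_zero, add_zero, Complex.zero_re]
    linarith
  by_cases h1 : x 1 = 0
  · have b := EuclideanSpace.basisFun (Fin (n + 2)) ℂ
    have hc : co b (x 1) = 0 := by rw [h1]; funext l; simp [co]
    have e11 : A 1 1 = 0 := by rw [hx, h1, inner_zero_left]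
    have e01 : A 0 1 = 0 := by rw [hx, h1, inner_zero_right]
    have e10 : A 1 0 = 0 := by rw [hx, h1, inner_zero_left]
    have z1 : lin (co b (x 1)) * ∏ i : Fin n, lin (co b (x i.succ.succ)) = 0 := by
      rw [hc, l0, zero_mul]
    rw [e11, e01, e10, per b (n + 1) (Fin.succAbove 0) (Fin.succAbove 0), pr0, z1, fz,
      perA b]
    have := fi_self_nonneg (lin (co b (x 0)) * (lin (co b (x 1)) *
      ∏ i : Fin n, lin (co b (x i.succ.succ))))
    simp only [zero_mul, mul_zero, sub_zero, add_zero, Complex.zero_re]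
    linarith
  obtain ⟨c, y0, y1, e0, e1, h⟩ := exists_split (x 0) (x 1) h0 h1
  obtain ⟨b, hb0, hb1⟩ := exists_basis y0 y1 h
  have h' : ⟪y1, y0⟫_ℂ = 0 := by rw [← inner_conj_symm, h]; simp
  obtain ⟨α, hα⟩ : ∃ α : ℂ, α = co b y0 0 := ⟨_, rfl⟩
  obtain ⟨β, hβ⟩ : ∃ β : ℂ, β = co b y1 1 := ⟨_, rfl⟩
  have Y0 : lin (co b y0) = C α * X 0 := by rw [hα]; exact lin_single 0 _ hb0
  have Y1 : lin (co b y1) = C β * X 1 := by rw [hβ]; exact lin_single 1 _ hb1
  have p0 : ⟪y0, y0⟫_ℂ = conj α * α := by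
    rw [← sum_co b y0 y0, Finset.sum_eq_single 0, hα]
    · intro l _ hl; rw [show co b y0 l = 0 from hb0 l hl, mul_zero]
    · intro h; exact absurd (Finset.mem_univ _) h
  have p1 : ⟪y1, y1⟫_ℂ = conj β * β := by
    rw [← sum_co b y1 y1, Finset.sum_eq_single 1, hβ]
    · intro l _ hl; rw [show co b y1 l = 0 from hb1 l hl, mul_zero]
    · intro h; exact absurd (Finset.mem_univ _) h
  have L0 : lin (co b (x 0)) = C α * X 0 + C β * X 1 := by rw [e0, co_add, lin_add, Y0, Y1]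
  have L1 : lin (co b (x 1)) = C c * (C α * X 0 - C β * X 1) := by
    rw [e1, co_smul, lin_smul, co_sub, lin_sub, Y0, Y1]
  have A00 : A 0 0 = conj α * α + conj β * β := by
    rw [hx, e0, inner_add_left, inner_add_right, inner_add_right, h, h', p0, p1]; ring
  have A01 : A 0 1 = c * (conj α * α - conj β * β) := by
    rw [hx, e0, e1, inner_smul_right, inner_add_left, inner_sub_right, inner_sub_right, h, h', p0,
      p1]; ring
  have A10 : A 1 0 = conj c * (conj α * α - conj β * β) := by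
    rw [hx, e0, e1, inner_smul_left, inner_sub_left, inner_add_right, inner_add_right, h, h', p0,
      p1]; ring
  have A11 : A 1 1 = conj c * c * (conj α * α + conj β * β) := by
    rw [hx, e1, inner_smul_left, inner_smul_right, inner_sub_left, inner_sub_right,
      inner_sub_right, h, h', p0, p1]; ring
  obtain ⟨P, hP⟩ : ∃ P : MvPolynomial (Fin (n + 2)) ℂ, P = ∏ i : Fin n, lin (co b (x i.succ.succ)) :=
    ⟨_, rfl⟩
  rw [per b, per b, per b, per b, pr0, pr1, perA b, ← hP, L0, L1, A00, A01, A10, A11]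
  have hal := algebra hP1 (C α * X 0) (C β * X 1) P c (conj α * α) (conj β * β)
  rw [hal]
  have hq : (C α * X 0 + C β * X 1) * (C c * (C α * X 0 - C β * X 1) * P) =
      C c * ((C (α ^ 2) * X 0 ^ 2 - C (β ^ 2) * X 1 ^ 2) * P) := by
    rw [C_pow, C_pow]; ring
  rw [hq, s1, s2, mul_assoc (C α) (X 0) P, mul_assoc (C β) (X 1) P, s1, s1, s2, s2]
  have hTT := hT n P α β
  obtain ⟨f0, hf0⟩ : ∃ f0 : ℂ, f0 = fi (X 0 * P) (X 0 * P) := ⟨_, rfl⟩
  obtain ⟨f1, hf1⟩ : ∃ f1 : ℂ, f1 = fi (X 1 * P) (X 1 * P) := ⟨_, rfl⟩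
  obtain ⟨fq, hfq⟩ : ∃ fq : ℂ, fq = fi ((C (α ^ 2) * X 0 ^ 2 - C (β ^ 2) * X 1 ^ 2) * P)
      ((C (α ^ 2) * X 0 ^ 2 - C (β ^ 2) * X 1 ^ 2) * P) := ⟨_, rfl⟩
  rw [← hf0, ← hf1, ← hfq] at hTT ⊢
  have t1 : conj c * c * (4 * (conj β * β) * (conj α * (α * f0)) +
      4 * (conj α * α) * (conj β * (β * f1))) =
      ((‖c‖ ^ 2 * (4 * (‖α‖ ^ 2 * ‖β‖ ^ 2)) : ℝ) : ℂ) * (f0 + f1) := by
    push_cast
    have i1 := conj_mul_self' c
    have i2 := conj_mul_self' α
    have i3 := conj_mul_self' β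
    push_cast at i1 i2 i3
    rw [← i1, ← i2, ← i3]; ring
  have t2 : conj c * (c * fq) = ((‖c‖ ^ 2 : ℝ) : ℂ) * fq := by
    rw [← conj_mul_self' c]; ring
  rw [t1, t2, Complex.re_ofReal_mul, Complex.re_ofReal_mul, Complex.add_re]
  have := mul_le_mul_of_nonneg_left hTT (sq_nonneg ‖c‖)
  linarith [this]

end Pool.Agent.Run7.h513.Pate
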