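import Pool.Agent.Run7.h513.pate.Iface

set_option autoImplicit false

namespace Pool.Agent.Run7.h513.Pate

/-- the key identity -/
theorem key_id (S s d N A : ℝ) (hS : S ^ 2 = (d * (N - 1)) ^ 2 + 4) (hs : s ^ 2 = d ^ 2 + 4) :
    4 * (S + s) *
      ((S + d * (N - 1)) / 2 * A ^ 2 + (S - d * (N - 1)) / 2 * (N - A) ^ 2 - s * (A * (N - A))
        + ((S + d * (N - 1)) / 2 + (s - d) / 2 - 2) * A
        + ((S - d * (N - 1)) / 2 + (s + d) / 2 - 2) * (N - A)) =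
    (2 * (S + s) * A - (N * (S - d * (N - 1) + s) - d * (N - 2))) ^ 2
      + 4 * (N - 1) * d ^ 2 + 4 * N * ((S - 2) * (s - 2)) := by
  linear_combination (N ^ 2 + 2 * N) * hS - (N ^ 2 - 2 * N) * hs

set_option maxHeartbeats 4000000 in
theorem t_S : PieceS := by
  intro x y N hx hy hN
  rcases hx.eq_or_lt with h0 | hx
  · refine ⟨1, one_pos, fun a b ha hb _ => ?_⟩
    subst h0
    have : 0 ≤ y ^ 2 * ((b + 1) * (b + 2)) := by positivity
    simpa using this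
  rcases hy.eq_or_lt with h0 | hy
  · refine ⟨1, one_pos, fun a b ha hb _ => ?_⟩
    subst h0
    have : 0 ≤ x ^ 2 * ((a + 1) * (a + 2)) := by positivity
    simpa using this
  obtain ⟨w, hw⟩ : ∃ w, w = x / y := ⟨_, rfl⟩
  obtain ⟨i, hi⟩ : ∃ i, i = y / x := ⟨_, rfl⟩
  have hwi : w * i = 1 := by rw [hw, hi]; field_simp
  have hw0 : 0 < w := by rw [hw]; positivity
  have hi0 : 0 < i := by rw [hi]; positivity
  have hN1 : 0 < N - 1 := by linarith
  obtain ⟨d, hd⟩ : ∃ d, d = (w - i) / (N - 1) := ⟨_, rfl⟩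
  have hd' : d * (N - 1) = w - i := by rw [hd]; field_simp
  obtain ⟨s, hs⟩ : ∃ s, s = Real.sqrt (d ^ 2 + 4) := ⟨_, rfl⟩
  have hs2 : s ^ 2 = d ^ 2 + 4 := by rw [hs]; exact Real.sq_sqrt (by positivity)
  have hs0 : 0 ≤ s := by rw [hs]; exact Real.sqrt_nonneg _
  have hsd : |d| < s := by
    rw [hs]; apply Real.lt_sqrt_of_sq_lt; rw [sq_abs]; linarith
  have hsd1 := (abs_lt.mp hsd).1
  have hsd2 := (abs_lt.mp hsd).2
  have hs22 : 2 ≤ s := by
    by_contra h; push Not at h; nlinarith [sq_nonneg d]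
  obtain ⟨ρ, hρ⟩ : ∃ ρ, ρ = (s - d) / 2 := ⟨_, rfl⟩
  have hρ0 : 0 < ρ := by rw [hρ]; linarith
  have hρi : ρ * ((s + d) / 2) = 1 := by rw [hρ]; nlinarith
  have hρinv : 1 / ρ = (s + d) / 2 := by
    rw [eq_comm, eq_div_iff hρ0.ne']; linarith [hρi]
  obtain ⟨S, hS⟩ : ∃ S, S = w + i := ⟨_, rfl⟩
  have hS2 : S ^ 2 = (d * (N - 1)) ^ 2 + 4 := by rw [hS, hd']; linear_combination 4 * hwi
  have hS22 : 2 ≤ S := by
    have h0 : 0 < S := by rw [hS]; linarith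
    by_contra h; push Not at h; nlinarith [sq_nonneg (d * (N - 1))]
  refine ⟨ρ, hρ0, fun a b ha hb hab => ?_⟩
  have hk := key_id S s d N (a + 1) hS2 hs2
  have hpos : 0 ≤ (2 * (S + s) * (a + 1) - (N * (S - d * (N - 1) + s) - d * (N - 2))) ^ 2
      + 4 * (N - 1) * d ^ 2 + 4 * N * ((S - 2) * (s - 2)) := by
    have h1 : 0 ≤ (S - 2) * (s - 2) := mul_nonneg (by linarith) (by linarith)
    positivity
  have hG : 0 ≤ (S + d * (N - 1)) / 2 * (a + 1) ^ 2 + (S - d * (N - 1)) / 2 * (N - (a + 1)) ^ 2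
      - s * ((a + 1) * (N - (a + 1)))
        + ((S + d * (N - 1)) / 2 + (s - d) / 2 - 2) * (a + 1)
        + ((S - d * (N - 1)) / 2 + (s + d) / 2 - 2) * (N - (a + 1)) := by
    rw [← hk] at hpos
    exact nonneg_of_mul_nonneg_right hpos (by linarith)
  have hb' : N - (a + 1) = b + 1 := by linarith
  have e1 : (S + d * (N - 1)) / 2 = w := by rw [hd', hS]; ring
  have e2 : (S - d * (N - 1)) / 2 = i := by rw [hd', hS]; ring
  have e3 : s = ρ + 1 / ρ := by rw [hρinv, hρ]; ring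
  rw [hb', e1, e2] at hG
  have e4 : (s - d) / 2 = ρ := hρ.symm
  rw [e4, ← hρinv] at hG
  rw [e3] at hG
  have hG2 : 0 ≤ x * y * (w * (a + 1) ^ 2 + i * (b + 1) ^ 2 - (ρ + 1 / ρ) * ((a + 1) * (b + 1)) +
      (w + ρ - 2) * (a + 1) + (i + 1 / ρ - 2) * (b + 1)) := mul_nonneg (by positivity) hG
  have e5 : x * y * w = x ^ 2 := by rw [hw]; field_simp
  have e6 : x * y * i = y ^ 2 := by rw [hi]; field_simp
  have e7 : x * y / ρ = x * y * (1 / ρ) := by ring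
  rw [e7, ← hab]
  have e8 : x ^ 2 * ((a + 1) * (a + 2)) + y ^ 2 * ((b + 1) * (b + 2))
      - x * y * ρ * ((a + 1) * b) - x * y * (1 / ρ) * ((b + 1) * a)
      - 2 * (x * y) * (a + b + 2) = x * y * (w * (a + 1) ^ 2 + i * (b + 1) ^ 2
        - (ρ + 1 / ρ) * ((a + 1) * (b + 1)) +
      (w + ρ - 2) * (a + 1) + (i + 1 / ρ - 2) * (b + 1)) := by
    rw [← e5, ← e6]; ring
  linarith

end Pool.Agent.Run7.h513.Pate
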